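import Mathlib

set_option autoImplicit false

/-! Branching rule for Schur polynomials given as sums over semistandard tableaux. -/

namespace H157R3.SNP

open MvPolynomial

/-- `μ / ν` is a horizontal strip. -/
def HS (μ ν : YoungDiagram) : Prop :=
  ν ≤ μ ∧ ∀ i j, (i + 1, j) ∈ μ → (i, j) ∈ ν

/-- tableaux with entries `< k` -/
abbrev Tab (k : ℕ) (μ : YoungDiagram) : Type :=
  {T : SemistandardYoungTableau μ // ∀ p ∈ μ.cells, T p.1 p.2 < k}

/-- the weight of a tableau -/
noncomputable def wt {k : ℕ} {μ : YoungDiagram} (T : Tab k μ) : MvPolynomial ℕ ℤ :=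
  ∏ p ∈ μ.cells, (X (T.1 p.1 p.2) : MvPolynomial ℕ ℤ)

/-- Schur polynomial in `k` variables -/
noncomputable def Sch (k : ℕ) (μ : YoungDiagram) : MvPolynomial ℕ ℤ :=
  ∑ᶠ T : Tab k μ, wt T

/-- the sub-diagram of entries `< k` -/
def sub {k : ℕ} {μ : YoungDiagram} (T : Tab (k + 1) μ) : YoungDiagram where
  cells := μ.cells.filter (fun p => T.1 p.1 p.2 < k)
  isLowerSet := by
    intro a b hba ha
    simp only [Finset.coe_filter, Set.mem_ofPred_eq] at ha ⊢
    obtain ⟨i, j⟩ := a
    obtain ⟨i', j'⟩ := b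
    obtain ⟨h1, h2⟩ := hba
    simp only at h1 h2
    have hm : (i, j) ∈ μ := by simpa using ha.1
    have hm' : (i', j') ∈ μ := μ.up_left_mem h1 h2 hm
    have hm'' : (i', j) ∈ μ := μ.up_left_mem h1 le_rfl hm
    refine ⟨by simpa using hm', ?_⟩
    have e1 : T.1 i' j' ≤ T.1 i' j := T.1.row_weak_of_le h2 hm''
    have e2 : T.1 i' j ≤ T.1 i j := T.1.col_weak h1 hm
    exact lt_of_le_of_lt (e1.trans e2) ha.2

theorem mem_sub {k : ℕ} {μ : YoungDiagram} (T : Tab (k + 1) μ) (i j : ℕ) :
    (i, j) ∈ sub T ↔ (i, j) ∈ μ ∧ T.1 i j < k := by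
  rw [← YoungDiagram.mem_cells]
  simp [sub]

theorem hs_sub {k : ℕ} {μ : YoungDiagram} (T : Tab (k + 1) μ) : HS μ (sub T) := by
  refine ⟨?_, ?_⟩
  · intro p hp
    obtain ⟨i, j⟩ := p
    exact ((mem_sub T i j).1 hp).1
  · intro i j h
    rw [mem_sub]
    have h1 : (i, j) ∈ μ := μ.up_left_mem (Nat.le_succ i) le_rfl h
    refine ⟨h1, ?_⟩
    have h2 : T.1 i j < T.1 (i + 1) j := T.1.col_strict (Nat.lt_succ_self i) h
    have h3 : T.1 (i + 1) j < k + 1 := T.2 (i + 1, j) (by simpa using h)
    omega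

/-- restriction of a tableau -/
def res {k : ℕ} {μ : YoungDiagram} (T : Tab (k + 1) μ) : Tab k (sub T) :=
  ⟨{ entry := fun i j => if (i, j) ∈ sub T then T.1 i j else 0
     row_weak' := by
       intro i j1 j2 hj hm
       have hm1 : (i, j1) ∈ sub T := (sub T).up_left_mem le_rfl hj.le hm
       rw [if_pos hm1, if_pos hm]
       exact T.1.row_weak hj ((mem_sub T i j2).1 hm).1
     col_strict' := by
       intro i1 i2 j hi hm
       have hm1 : (i1, j) ∈ sub T := (sub T).up_left_mem hi.le le_rfl hm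
       rw [if_pos hm1, if_pos hm]
       exact T.1.col_strict hi ((mem_sub T i2 j).1 hm).1
     zeros' := by
       intro i j h
       rw [if_neg h] },
   by
     intro p hp
     obtain ⟨i, j⟩ := p
     have hp' : (i, j) ∈ sub T := by simpa using hp
     show (if (i, j) ∈ sub T then T.1 i j else 0) < k
     rw [if_pos hp']
     exact ((mem_sub T i j).1 hp').2⟩

/-- extension of a tableau by `k` on a horizontal strip -/
def ext {k : ℕ} {μ ν : YoungDiagram} (h : HS μ ν) (T : Tab k ν) : Tab (k + 1) μ :=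
  ⟨{ entry := fun i j => if (i, j) ∈ ν then T.1 i j else if (i, j) ∈ μ then k else 0
     row_weak' := by
       intro i j1 j2 hj hm
       have hm1 : (i, j1) ∈ μ := μ.up_left_mem le_rfl hj.le hm
       by_cases h2 : (i, j2) ∈ ν
       · have h1 : (i, j1) ∈ ν := ν.up_left_mem le_rfl hj.le h2
         rw [if_pos h1, if_pos h2]
         exact T.1.row_weak hj h2
       · rw [if_neg h2, if_pos hm]
         by_cases h1 : (i, j1) ∈ ν
         · rw [if_pos h1]
           exact (T.2 (i, j1) (by simpa using h1)).le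
         · rw [if_neg h1, if_pos hm1]
     col_strict' := by
       intro i1 i2 j hi hm
       by_cases h2 : (i2, j) ∈ ν
       · have h1 : (i1, j) ∈ ν := ν.up_left_mem hi.le le_rfl h2
         rw [if_pos h1, if_pos h2]
         exact T.1.col_strict hi h2
       · have h1 : (i1, j) ∈ ν := h.2 i1 j (μ.up_left_mem hi le_rfl hm)
         rw [if_neg h2, if_pos hm, if_pos h1]
         exact T.2 (i1, j) (by simpa using h1)
     zeros' := by
       intro i j hm
       have h1 : (i, j) ∉ ν := fun h' => hm (h.1 h')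
       rw [if_neg h1, if_neg hm] },
   by
     intro p hp
     obtain ⟨i, j⟩ := p
     have hp' : (i, j) ∈ μ := by simpa using hp
     show (if (i, j) ∈ ν then T.1 i j else if (i, j) ∈ μ then k else 0) < k + 1
     by_cases h1 : (i, j) ∈ ν
     · rw [if_pos h1]
       exact (T.2 (i, j) (by simpa using h1)).trans (Nat.lt_succ_self k)
     · rw [if_neg h1, if_pos hp']
       exact Nat.lt_succ_self k⟩

theorem res_apply {k : ℕ} {μ : YoungDiagram} (T : Tab (k + 1) μ) (i j : ℕ) :
    (res T).1 i j = if (i, j) ∈ sub T then T.1 i j else 0 := rfl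

theorem ext_apply {k : ℕ} {μ ν : YoungDiagram} (h : HS μ ν) (T : Tab k ν) (i j : ℕ) :
    (ext h T).1 i j = if (i, j) ∈ ν then T.1 i j else if (i, j) ∈ μ then k else 0 := rfl

theorem sub_ext {k : ℕ} {μ ν : YoungDiagram} (h : HS μ ν) (T : Tab k ν) :
    sub (ext h T) = ν := by
  apply SetLike.ext
  rintro ⟨i, j⟩
  rw [mem_sub, ext_apply]
  constructor
  · rintro ⟨h1, h2⟩
    by_contra hn
    rw [if_neg hn, if_pos h1] at h2
    exact lt_irrefl _ h2
  · intro hn
    refine ⟨h.1 hn, ?_⟩
    rw [if_pos hn]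
    exact T.2 (i, j) (by simpa using hn)

theorem tab_heq {k : ℕ} {ν ν' : YoungDiagram} (e : ν = ν') (T : Tab k ν) (T' : Tab k ν')
    (h : ∀ i j, T.1 i j = T'.1 i j) : HEq T T' := by
  subst e
  apply heq_of_eq
  apply Subtype.ext
  exact SemistandardYoungTableau.ext h

/-- the branching equivalence -/
def branch (k : ℕ) (μ : YoungDiagram) :
    Tab (k + 1) μ ≃ (Σ ν : {ν : YoungDiagram // HS μ ν}, Tab k ν.1) where
  toFun T := ⟨⟨sub T, hs_sub T⟩, res T⟩
  invFun q := ext q.1.2 q.2
  left_inv := by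
    intro T
    apply Subtype.ext
    apply SemistandardYoungTableau.ext
    intro i j
    rw [ext_apply]
    by_cases h1 : (i, j) ∈ sub T
    · rw [if_pos h1]
      show (res T).1 i j = _
      rw [res_apply, if_pos h1]
    · rw [if_neg h1]
      by_cases h2 : (i, j) ∈ μ
      · rw [if_pos h2]
        have h3 : ¬ T.1 i j < k := fun h => h1 ((mem_sub T i j).2 ⟨h2, h⟩)
        have h4 : T.1 i j < k + 1 := T.2 (i, j) (by simpa using h2)
        omega
      · rw [if_neg h2]
        exact (T.1.zeros h2).symm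
  right_inv := by
    rintro ⟨⟨ν, h⟩, T⟩
    have e : sub (ext h T) = ν := sub_ext h T
    apply Sigma.ext
    · exact Subtype.ext e
    · apply tab_heq e
      intro i j
      show (res (ext h T)).1 i j = T.1 i j
      rw [res_apply, e, ext_apply]
      by_cases h1 : (i, j) ∈ ν
      · rw [if_pos h1, if_pos h1]
      · rw [if_neg h1]
        exact (T.1.zeros h1).symm

instance finHS (μ : YoungDiagram) : Finite {ν : YoungDiagram // HS μ ν} := by
  have : Function.Injective
      (fun ν : {ν : YoungDiagram // HS μ ν} => (⟨ν.1.cells, by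
        rw [Finset.mem_powerset, YoungDiagram.cells_subset_iff]; exact ν.2.1⟩ :
        {s : Finset (ℕ × ℕ) // s ∈ μ.cells.powerset})) := by
    intro a b hab
    simp only [Subtype.mk.injEq] at hab
    apply Subtype.ext
    exact YoungDiagram.ext hab
  exact Finite.of_injective _ this

theorem finTab (k : ℕ) : ∀ μ : YoungDiagram, Finite (Tab k μ) := by
  induction k with
  | zero =>
    intro μ
    have : Subsingleton (Tab 0 μ) := by
      constructor
      intro S T
      apply Subtype.ext
      apply SemistandardYoungTableau.ext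
      intro i j
      by_cases h : (i, j) ∈ μ
      · exact absurd (S.2 (i, j) (by simpa using h)) (Nat.not_lt_zero _)
      · rw [S.1.zeros h, T.1.zeros h]
    infer_instance
  | succ k ih =>
    intro μ
    have : ∀ ν : {ν : YoungDiagram // HS μ ν}, Finite (Tab k ν.1) := fun ν => ih ν.1
    exact Finite.of_equiv _ (branch k μ).symm

instance (k : ℕ) (μ : YoungDiagram) : Finite (Tab k μ) := finTab k μ

theorem wt_branch {k : ℕ} {μ ν : YoungDiagram} (h : HS μ ν) (T : Tab k ν) :
    wt (ext h T) = wt T * X k ^ (μ.card - ν.card) := by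
  unfold wt
  have hsub : ν.cells ⊆ μ.cells := YoungDiagram.cells_subset_iff.2 h.1
  rw [← Finset.prod_sdiff hsub, mul_comm]
  congr 1
  · apply Finset.prod_congr rfl
    rintro ⟨i, j⟩ hp
    have hp' : (i, j) ∈ ν := by simpa using hp
    show (X ((ext h T).1 i j) : MvPolynomial ℕ ℤ) = X (T.1 i j)
    rw [ext_apply, if_pos hp']
  · have : ∀ p ∈ μ.cells \ ν.cells, (X ((ext h T).1 p.1 p.2) : MvPolynomial ℕ ℤ) = X k := by
      rintro ⟨i, j⟩ hp
      rw [Finset.mem_sdiff] at hp
      have h1 : (i, j) ∈ μ := by simpa using hp.1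
      have h2 : (i, j) ∉ ν := by simpa using hp.2
      show (X ((ext h T).1 i j) : MvPolynomial ℕ ℤ) = X k
      rw [ext_apply, if_neg h2, if_pos h1]
    rw [Finset.prod_congr rfl this, Finset.prod_const, Finset.card_sdiff_of_subset hsub]

theorem Sch_succ (k : ℕ) (μ : YoungDiagram) :
    Sch (k + 1) μ =
      ∑ᶠ ν : {ν : YoungDiagram // HS μ ν}, Sch k ν.1 * X k ^ (μ.card - ν.1.card) := by
  classical
  have : Fintype {ν : YoungDiagram // HS μ ν} := Fintype.ofFinite _
  have : ∀ (k : ℕ) (ν : YoungDiagram), Fintype (Tab k ν) := fun k ν => Fintype.ofFinite _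
  unfold Sch
  rw [finsum_eq_sum_of_fintype, finsum_eq_sum_of_fintype]
  have : ∀ ν : {ν : YoungDiagram // HS μ ν},
      (∑ᶠ T : Tab k ν.1, wt T) * (X k : MvPolynomial ℕ ℤ) ^ (μ.card - ν.1.card)
        = ∑ T : Tab k ν.1, wt T * X k ^ (μ.card - ν.1.card) := by
    intro ν
    rw [finsum_eq_sum_of_fintype, Finset.sum_mul]
  rw [Finset.sum_congr rfl (fun ν _ => this ν)]
  rw [Finset.sum_sigma' Finset.univ (fun ν : {ν : YoungDiagram // HS μ ν} =>
    (Finset.univ : Finset (Tab k ν.1))) (fun ν T => wt T * X k ^ (μ.card - ν.1.card))]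
  rw [Finset.univ_sigma_univ]
  refine Fintype.sum_equiv (branch k μ) _ _ ?_
  intro T
  have e : T = ext (branch k μ T).1.2 (branch k μ T).2 := ((branch k μ).symm_apply_apply T).symm
  conv_lhs => rw [e]
  exact wt_branch _ _

theorem Sch_zero (μ : YoungDiagram) : Sch 0 μ = if μ.card = 0 then 1 else 0 := by
  classical
  unfold Sch
  by_cases h : μ.card = 0
  · rw [if_pos h]
    have hc : μ.cells = ∅ := Finset.card_eq_zero.1 h
    have : Unique (Tab 0 μ) :=
      { default := ⟨default, by intro p hp; rw [hc] at hp; simp at hp⟩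
        uniq := by
          intro S
          apply Subtype.ext
          apply SemistandardYoungTableau.ext
          intro i j
          have hm : (i, j) ∉ μ := by
            rw [← YoungDiagram.mem_cells, hc]; simp
          rw [S.1.zeros hm, SemistandardYoungTableau.zeros _ hm] }
    rw [finsum_unique]
    unfold wt
    rw [Finset.prod_eq_one]
    intro p hp
    rw [hc] at hp
    simp at hp
  · rw [if_neg h]
    have hne : μ.cells.Nonempty := by
      rw [← Finset.card_pos]
      exact Nat.pos_of_ne_zero h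
    obtain ⟨p, hp⟩ := hne
    have : IsEmpty (Tab 0 μ) := ⟨fun T => Nat.not_lt_zero _ (T.2 p hp)⟩
    exact finsum_of_isEmpty _

end H157R3.SNP
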