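import Pool.Agent.H157R3.SNP.Lists
import Pool.Agent.H157R3.SNP.Data

set_option autoImplicit false

/-! The finite verification. -/

namespace H157R3.SNP

/-- which class types are stable: `C1, R1, C2, R2` with `R1 - C2`, `R2 - C1`, `R1 - R2` adjacent -/
def okb (s1 t1 s2 t2 : ℕ) : Bool :=
  (Nat.beq t1 0 || Nat.beq s2 0) && ((Nat.beq t2 0 || Nat.beq s1 0) &&
    (Nat.beq t1 0 || Nat.beq t2 0))

/-- table lookup -/
def tab (c1 r1 c2 r2 : ℕ) : List ℤ :=
  ((((T.getD c1 []).getD r1 []).getD c2 []).getD r2 [])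

/-- class types -/
def subs (c1 r1 c2 r2 : ℕ) : List (ℕ × ℕ × ℕ × ℕ) :=
  (List.range (c1 + 1)).flatMap fun s1 => (List.range (r1 + 1)).flatMap fun t1 =>
    (List.range (c2 + 1)).flatMap fun s2 => (List.range (r2 + 1)).flatMap fun t2 =>
      if okb s1 t1 s2 t2 = true then [(s1, t1, s2, t2)] else []

/-- vector addition -/
def vadd (u v : List ℤ) : List ℤ := List.zipWith (· + ·) u v

/-- scalar multiplication -/
def smulv (c : ℤ) (v : List ℤ) : List ℤ := v.map (c * ·)

/-- left-hand side vector -/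
def lhs (m c1 r1 c2 r2 : ℕ) : List ℤ :=
  (subs c1 r1 c2 r2).foldr (fun s acc =>
    if Nat.beq (s.1 + s.2.1 + s.2.2.1 + s.2.2.2 + m) (c1 + r1 + c2 + r2) = true then
      vadd (smulv ((c1.choose s.1 * r1.choose s.2.1 * c2.choose s.2.2.1 * r2.choose s.2.2.2 : ℕ) : ℤ)
        (tab (c1 - s.1) (r1 - s.2.1) (c2 - s.2.2.1) (r2 - s.2.2.2))) acc
    else acc) ((PLd.getD m []).map (fun _ => (0 : ℤ)))

/-- sum of the coefficients of the `μ` such that `μ / ν` is a horizontal strip -/
def dotI (ν : List ℕ) : List (List ℕ) → List ℤ → ℤ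
  | μ :: P, c :: v => (if ilace μ ν = true then c else 0) + dotI ν P v
  | _, _ => 0

/-- right-hand side vector -/
def rhs (m c1 r1 c2 r2 : ℕ) : List ℤ :=
  (PLd.getD m []).map (fun ν => dotI ν (PLd.getD (c1 + r1 + c2 + r2) []) (tab c1 r1 c2 r2))

/-- check for one type -/
def chk (c1 r1 c2 r2 : ℕ) : Bool :=
  (decide ((tab c1 r1 c2 r2).length = (PLd.getD (c1 + r1 + c2 + r2) []).length)) &&
  (List.range (c1 + r1 + c2 + r2 + 1)).all fun m => decide (lhs m c1 r1 c2 r2 = rhs m c1 r1 c2 r2)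

/-- check for all types with the first two entries given -/
def chk2 (c1 r1 : ℕ) : Bool :=
  (List.range 6).all fun c2 => (List.range 3).all fun r2 => chk c1 r1 c2 r2

theorem chk00 : chk2 0 0 = true := by decide +kernel
theorem chk01 : chk2 0 1 = true := by decide +kernel
theorem chk02 : chk2 0 2 = true := by decide +kernel
theorem chk10 : chk2 1 0 = true := by decide +kernel
theorem chk11 : chk2 1 1 = true := by decide +kernel
theorem chk12 : chk2 1 2 = true := by decide +kernel
theorem chk20 : chk2 2 0 = true := by decide +kernel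
theorem chk21 : chk2 2 1 = true := by decide +kernel
theorem chk22 : chk2 2 2 = true := by decide +kernel
theorem chk30 : chk2 3 0 = true := by decide +kernel
theorem chk31 : chk2 3 1 = true := by decide +kernel
theorem chk32 : chk2 3 2 = true := by decide +kernel
theorem chk40 : chk2 4 0 = true := by decide +kernel
theorem chk41 : chk2 4 1 = true := by decide +kernel
theorem chk42 : chk2 4 2 = true := by decide +kernel

theorem chk2_all : ∀ c1 < 5, ∀ r1 < 3, chk2 c1 r1 = true := by
  intro c1 h1 r1 h2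
  have e1 : c1 = 0 ∨ c1 = 1 ∨ c1 = 2 ∨ c1 = 3 ∨ c1 = 4 := by omega
  have e2 : r1 = 0 ∨ r1 = 1 ∨ r1 = 2 := by omega
  rcases e1 with rfl | rfl | rfl | rfl | rfl <;> rcases e2 with rfl | rfl | rfl
  · exact chk00
  · exact chk01
  · exact chk02
  · exact chk10
  · exact chk11
  · exact chk12
  · exact chk20
  · exact chk21
  · exact chk22
  · exact chk30
  · exact chk31
  · exact chk32
  · exact chk40
  · exact chk41
  · exact chk42

theorem chk_all (c1 r1 c2 r2 : ℕ) (h1 : c1 ≤ 4) (h2 : r1 ≤ 2) (h3 : c2 ≤ 5) (h4 : r2 ≤ 2) :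
    chk c1 r1 c2 r2 = true := by
  have h := chk2_all c1 (by omega) r1 (by omega)
  unfold chk2 at h
  rw [List.all_eq_true] at h
  have h' := h c2 (List.mem_range.2 (by omega))
  rw [List.all_eq_true] at h'
  exact h' r2 (List.mem_range.2 (by omega))

theorem PLd_eq (n : ℕ) (hn : n ≤ 13) : PLd.getD n [] = PL n := by
  have h : (List.range 14).all (fun n => decide (PLd.getD n [] = PL n)) = true := by
    decide +kernel
  rw [List.all_eq_true] at h
  have := h n (List.mem_range.2 (by omega))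
  exact of_decide_eq_true this

theorem chk_spec (c1 r1 c2 r2 : ℕ) (h1 : c1 ≤ 4) (h2 : r1 ≤ 2) (h3 : c2 ≤ 5) (h4 : r2 ≤ 2) :
    (tab c1 r1 c2 r2).length = (PL (c1 + r1 + c2 + r2)).length ∧
    ∀ m ≤ c1 + r1 + c2 + r2, lhs m c1 r1 c2 r2 = rhs m c1 r1 c2 r2 := by
  have h := chk_all c1 r1 c2 r2 h1 h2 h3 h4
  unfold chk at h
  rw [Bool.and_eq_true] at h
  refine ⟨?_, ?_⟩
  · rw [← PLd_eq _ (by omega)]
    exact of_decide_eq_true h.1
  · intro m hm
    have h5 := h.2
    rw [List.all_eq_true] at h5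
    exact of_decide_eq_true (h5 m (List.mem_range.2 (by omega)))

end H157R3.SNP
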