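import Pool.Agent.H157R3.SNP.Main

set_option autoImplicit false

/-! The counterexample. -/

namespace H157R3.SNP

open MvPolynomial

/-- the graph -/
def G : SimpleGraph (Fin 13) where
  Adj := adj
  symm := ⟨by
    intro u v h
    unfold adj adjL at *
    tauto⟩
  loopless := ⟨by
    intro u h
    unfold adj adjL at h
    generalize lab u = x at h
    revert h
    revert x
    decide⟩

theorem finsum_eq_cp (k : ℕ) :
    (∑ᶠ κ : {κ : Fin 13 → Fin k // ∀ u v, G.Adj u v → κ u ≠ κ v},
      ∏ v, (MvPolynomial.X ((κ.1 v : ℕ)) : MvPolynomial ℕ ℤ)) = cp adj k Finset.univ := by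
  classical
  rw [finsum_eq_sum_of_fintype]
  unfold cp
  refine Finset.sum_bij (fun κ _ => fun v => ((κ.1 v : ℕ))) ?_ ?_ ?_ ?_
  · intro κ _
    rw [mem_Col]
    refine ⟨fun v _ => (κ.1 v).2, fun v hv => absurd (Finset.mem_univ v) hv, ?_⟩
    intro u _ v _ huv h
    exact κ.2 u v huv (Fin.ext h)
  · intro κ _ κ' _ h
    apply Subtype.ext
    funext v
    exact Fin.ext (congrFun h v)
  · intro κ hκ
    rw [mem_Col] at hκ
    obtain ⟨h1, _, h3⟩ := hκ
    refine ⟨⟨fun v => ⟨κ v, h1 v (Finset.mem_univ v)⟩, ?_⟩, Finset.mem_univ _, rfl⟩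
    intro u v huv h
    exact h3 u (Finset.mem_univ _) v (Finset.mem_univ _) huv (Fin.mk.inj h)
  · intro κ _
    rfl

theorem cp_univ (k : ℕ) : cp adj k Finset.univ = ev (fun μ => Sch k (yd μ)) (PL 13) (tab 4 2 5 2) := by
  rw [cp_eq]
  have e0 : cnt Finset.univ 0 = 4 := by decide
  have e1 : cnt Finset.univ 1 = 2 := by decide
  have e2 : cnt Finset.univ 2 = 5 := by decide
  have e3 : cnt Finset.univ 3 = 2 := by decide
  rw [e0, e1, e2, e3]
  exact fp_eq k 4 2 5 2 le_rfl le_rfl le_rfl le_rfl

/-- coefficients as a finitely supported function -/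
noncomputable def cf : List (List ℕ) → List ℤ → (YoungDiagram →₀ ℕ)
  | μ :: P, c :: v => Finsupp.single (yd μ) c.toNat + cf P v
  | _, _ => 0

theorem cf_sum (k : ℕ) (P : List (List ℕ)) : ∀ v : List ℤ, (∀ c ∈ v, 0 ≤ c) →
    (cf P v).sum (fun μ a => a • Sch k μ) = ev (fun μ => Sch k (yd μ)) P v := by
  induction P with
  | nil => intro v _; simp [cf, ev]
  | cons μ P ih =>
    intro v hv
    cases v with
    | nil => simp [cf, ev]
    | cons c v =>
      rw [cf, ev, Finsupp.sum_add_index' (by intro a; simp) (by intro a b c; rw [add_smul]),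
        Finsupp.sum_single_index (by simp), ih v (fun c hc => hv c (List.mem_cons_of_mem _ hc))]
      congr 1
      have hc : 0 ≤ c := hv c List.mem_cons_self
      rw [nsmul_eq_mul]
      congr 1
      have : ((c.toNat : ℤ) : MvPolynomial ℕ ℤ) = (c : MvPolynomial ℕ ℤ) := by
        rw [Int.toNat_of_nonneg hc]
      rw [← this]
      push_cast
      rfl

theorem tab_nonneg : ∀ c ∈ tab 4 2 5 2, 0 ≤ c := by decide +kernel

/-- content of a colouring -/
noncomputable def content (κ : Fin 13 → ℕ) : ℕ →₀ ℕ := ∑ v, Finsupp.single (κ v) 1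

theorem content_apply (κ : Fin 13 → ℕ) (i : ℕ) :
    content κ i = (Finset.univ.filter (fun v => κ v = i)).card := by
  unfold content
  rw [Finsupp.finsetSum_apply, Finset.card_filter]
  apply Finset.sum_congr rfl
  intro v _
  rw [Finsupp.single_apply]

theorem prod_eq (κ : Fin 13 → ℕ) :
    ∏ v, (X (κ v) : MvPolynomial ℕ ℤ) = monomial (content κ) 1 := by
  unfold content
  rw [MvPolynomial.monomial_sum_one]
  rfl

theorem mem_support_iff' (k : ℕ) (β : ℕ →₀ ℕ) :
    β ∈ (cp adj k Finset.univ).support ↔ ∃ κ ∈ Col adj k Finset.univ, content κ = β := by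
  classical
  rw [MvPolynomial.mem_support_iff]
  have e : coeff β (cp adj k Finset.univ) =
      (((Col adj k Finset.univ).filter (fun κ => content κ = β)).card : ℤ) := by
    unfold cp
    rw [MvPolynomial.coeff_sum, Finset.card_filter]
    push_cast
    apply Finset.sum_congr rfl
    intro κ _
    rw [prod_eq, MvPolynomial.coeff_monomial]
  rw [e]
  constructor
  · intro h
    have : 0 < ((Col adj k Finset.univ).filter (fun κ => content κ = β)).card := by
      by_contra hn
      apply h
      have : ((Col adj k Finset.univ).filter (fun κ => content κ = β)).card = 0 := by omega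
      rw [this]; rfl
    obtain ⟨κ, hκ⟩ := Finset.card_pos.1 this
    rw [Finset.mem_filter] at hκ
    exact ⟨κ, hκ⟩
  · rintro ⟨κ, hκ⟩
    have : 0 < ((Col adj k Finset.univ).filter (fun κ => content κ = β)).card :=
      Finset.card_pos.2 ⟨κ, Finset.mem_filter.2 hκ⟩
    omega

attribute [local irreducible] cp

/-- first colouring: type `(9, 2, 2)` -/
def κ1 (v : Fin 13) : ℕ := if lab v = 1 then 1 else if lab v = 3 then 2 else 0

/-- second colouring: type `(7, 6)` -/
def κ2 (v : Fin 13) : ℕ := if lab v = 0 ∨ lab v = 1 then 1 else 0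

/-- `(9, 2, 2)` -/
noncomputable def β1 : ℕ →₀ ℕ := Finsupp.single 0 9 + Finsupp.single 1 2 + Finsupp.single 2 2

/-- `(7, 6)` -/
noncomputable def β2 : ℕ →₀ ℕ := Finsupp.single 0 7 + Finsupp.single 1 6

/-- `(8, 4, 1)` -/
noncomputable def α0 : ℕ →₀ ℕ := Finsupp.single 0 8 + Finsupp.single 1 4 + Finsupp.single 2 1

theorem β1_mem : β1 ∈ (cp adj 3 Finset.univ).support := by
  rw [mem_support_iff']
  refine ⟨κ1, ?_, ?_⟩
  · rw [mem_Col]
    refine ⟨by decide, fun v hv => absurd (Finset.mem_univ v) hv, by decide⟩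
  · ext i
    rw [content_apply]
    match i with
    | 0 => simp only [β1, Finsupp.add_apply, Finsupp.single_apply]; decide
    | 1 => simp only [β1, Finsupp.add_apply, Finsupp.single_apply]; decide
    | 2 => simp only [β1, Finsupp.add_apply, Finsupp.single_apply]; decide
    | j + 3 =>
      have h : (Finset.univ.filter (fun v => κ1 v = j + 3)) = ∅ := by
        apply Finset.filter_eq_empty_iff.2
        intro v _
        have : κ1 v < 3 := by revert v; decide
        omega
      rw [h]
      simp [β1]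

theorem β2_mem : β2 ∈ (cp adj 3 Finset.univ).support := by
  rw [mem_support_iff']
  refine ⟨κ2, ?_, ?_⟩
  · rw [mem_Col]
    refine ⟨by decide, fun v hv => absurd (Finset.mem_univ v) hv, by decide⟩
  · ext i
    rw [content_apply]
    match i with
    | 0 => simp only [β2, Finsupp.add_apply, Finsupp.single_apply]; decide
    | 1 => simp only [β2, Finsupp.add_apply, Finsupp.single_apply]; decide
    | 2 => simp only [β2, Finsupp.add_apply, Finsupp.single_apply]; decide
    | j + 3 =>
      have h : (Finset.univ.filter (fun v => κ2 v = j + 3)) = ∅ := by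
        apply Finset.filter_eq_empty_iff.2
        intro v _
        have : κ2 v < 3 := by revert v; decide
        omega
      rw [h]
      simp [β2]

theorem cnt_fiber (κ : Fin 13 → ℕ) (h : ∀ v, κ v < 3) (i : Fin 4) :
    cnt Finset.univ i = cnt (Finset.univ.filter (fun v => κ v = 0)) i +
      cnt (Finset.univ.filter (fun v => κ v = 1)) i +
      cnt (Finset.univ.filter (fun v => κ v = 2)) i := by
  unfold cnt
  rw [Finset.card_eq_sum_card_fiberwise (f := κ) (t := Finset.range 3)
    (fun v _ => by simpa using h v)]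
  rw [Finset.sum_range_succ, Finset.sum_range_succ, Finset.sum_range_succ, Finset.sum_range_zero,
    zero_add]
  rw [Finset.filter_comm, Finset.filter_comm (p := fun v => lab v = i) (q := fun v => κ v = 1),
    Finset.filter_comm (p := fun v => lab v = i) (q := fun v => κ v = 2)]

theorem α0_notMem : α0 ∉ (cp adj 3 Finset.univ).support := by
  rw [mem_support_iff']
  rintro ⟨κ, hκ, hc⟩
  rw [mem_Col] at hκ
  obtain ⟨h1, _, h3⟩ := hκ
  have hlt : ∀ v, κ v < 3 := fun v => h1 v (Finset.mem_univ v)
  have hst : ∀ c, Stab adj (Finset.univ.filter (fun v => κ v = c)) := by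
    intro c u hu v hv huv
    rw [Finset.mem_filter] at hu hv
    exact h3 u (Finset.mem_univ _) v (Finset.mem_univ _) huv (hu.2.trans hv.2.symm)
  have c0 : (Finset.univ.filter (fun v => κ v = 0)).card = 8 := by
    rw [← content_apply, hc]; simp [α0]
  have c1 : (Finset.univ.filter (fun v => κ v = 1)).card = 4 := by
    rw [← content_apply, hc]; simp [α0]
  have c2 : (Finset.univ.filter (fun v => κ v = 2)).card = 1 := by
    rw [← content_apply, hc]; simp [α0]
  rw [card_eq] at c0 c1 c2
  have s0 := (stab_iff _).1 (hst 0)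
  have s1 := (stab_iff _).1 (hst 1)
  have s2 := (stab_iff _).1 (hst 2)
  have f0 := cnt_fiber κ hlt 0
  have f1 := cnt_fiber κ hlt 1
  have f2 := cnt_fiber κ hlt 2
  have f3 := cnt_fiber κ hlt 3
  have e0 : cnt Finset.univ 0 = 4 := by decide
  have e1 : cnt Finset.univ 1 = 2 := by decide
  have e2 : cnt Finset.univ 2 = 5 := by decide
  have e3 : cnt Finset.univ 3 = 2 := by decide
  rw [e0] at f0
  rw [e1] at f1
  rw [e2] at f2
  rw [e3] at f3
  unfold okb at s0 s1 s2
  simp only [Bool.and_eq_true, Bool.or_eq_true, Nat.beq_eq] at s0 s1 s2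
  generalize cnt (Finset.univ.filter (fun v => κ v = 0)) 0 = a0 at *
  generalize cnt (Finset.univ.filter (fun v => κ v = 0)) 1 = a1 at *
  generalize cnt (Finset.univ.filter (fun v => κ v = 0)) 2 = a2 at *
  generalize cnt (Finset.univ.filter (fun v => κ v = 0)) 3 = a3 at *
  generalize cnt (Finset.univ.filter (fun v => κ v = 1)) 0 = b0 at *
  generalize cnt (Finset.univ.filter (fun v => κ v = 1)) 1 = b1 at *
  generalize cnt (Finset.univ.filter (fun v => κ v = 1)) 2 = b2 at *
  generalize cnt (Finset.univ.filter (fun v => κ v = 1)) 3 = b3 at *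
  generalize cnt (Finset.univ.filter (fun v => κ v = 2)) 0 = d0 at *
  generalize cnt (Finset.univ.filter (fun v => κ v = 2)) 1 = d1 at *
  generalize cnt (Finset.univ.filter (fun v => κ v = 2)) 2 = d2 at *
  generalize cnt (Finset.univ.filter (fun v => κ v = 2)) 3 = d3 at *
  clear hst h3 h1 hc hlt e0 e1 e2 e3
  obtain ⟨p1, p2, p3⟩ := s0
  have ha1 : a1 = 0 := by
    rcases p1 with p | p
    · exact p
    · rcases p3 with q | q
      · exact q
      · omega
  have ha3 : a3 = 0 := by
    rcases p2 with p | p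
    · exact p
    · rcases p3 with q | q
      · omega
      · exact q
  omega

theorem half_mem (A : Set (ℕ → ℝ)) (x y : ℕ → ℝ) (hx : x ∈ convexHull ℝ A)
    (hy : y ∈ convexHull ℝ A) : (1 / 2 : ℝ) • x + (1 / 2 : ℝ) • y ∈ convexHull ℝ A :=
  convex_convexHull ℝ A hx hy (by norm_num) (by norm_num) (by norm_num)

theorem hull_mem :
    (fun i : ℕ => (α0 i : ℝ)) ∈ convexHull ℝ
      ((fun β : ℕ →₀ ℕ => (fun i : ℕ => (β i : ℝ))) ''
        ((cp adj 3 Finset.univ).support : Set (ℕ →₀ ℕ))) := by
  have key : ∀ (A : Set (ℕ →₀ ℕ)) (b : ℕ →₀ ℕ), b ∈ A →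
      (fun i : ℕ => (b i : ℝ)) ∈ convexHull ℝ
        ((fun β : ℕ →₀ ℕ => (fun i : ℕ => (β i : ℝ))) '' A) := by
    intro A b hb
    exact subset_convexHull ℝ _ (Set.mem_image_of_mem _ hb)
  have h1 := key _ β1 (Finset.mem_coe.2 β1_mem)
  have h2 := key _ β2 (Finset.mem_coe.2 β2_mem)
  have h := half_mem _ _ _ h1 h2
  have e : (fun i : ℕ => (α0 i : ℝ)) =
      (1 / 2 : ℝ) • (fun i : ℕ => (β1 i : ℝ)) + (1 / 2 : ℝ) • (fun i : ℕ => (β2 i : ℝ)) := by
    funext i
    simp only [Pi.add_apply, Pi.smul_apply, smul_eq_mul, α0, β1, β2, Finsupp.add_apply,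
      Finsupp.single_apply]
    match i with
    | 0 => norm_num
    | 1 => norm_num
    | 2 => norm_num
    | j + 3 => norm_num
  rw [e]
  exact h

end H157R3.SNP
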