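import Mathlib

set_option autoImplicit false

/-! Recursion for colouring polynomials, removing the last colour class. -/

namespace H157R3.SNP

open MvPolynomial

variable {V : Type} [Fintype V] [DecidableEq V]

/-- proper colourings of the induced subgraph on `U` with colours `< k`, extended by `0` -/
def Col (adj : V → V → Prop) [DecidableRel adj] (k : ℕ) (U : Finset V) : Finset (V → ℕ) :=
  (Fintype.piFinset (fun v => if v ∈ U then Finset.range k else {0})).filter
    (fun κ => ∀ u ∈ U, ∀ v ∈ U, adj u v → κ u ≠ κ v)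

/-- colouring polynomial -/
noncomputable def cp (adj : V → V → Prop) [DecidableRel adj] (k : ℕ) (U : Finset V) :
    MvPolynomial ℕ ℤ :=
  ∑ κ ∈ Col adj k U, ∏ v ∈ U, (X (κ v) : MvPolynomial ℕ ℤ)

/-- stable sets -/
def Stab (adj : V → V → Prop) (S : Finset V) : Prop := ∀ u ∈ S, ∀ v ∈ S, ¬ adj u v

theorem mem_Col (adj : V → V → Prop) [DecidableRel adj] (k : ℕ) (U : Finset V) (κ : V → ℕ) :
    κ ∈ Col adj k U ↔ (∀ v ∈ U, κ v < k) ∧ (∀ v, v ∉ U → κ v = 0) ∧
      (∀ u ∈ U, ∀ v ∈ U, adj u v → κ u ≠ κ v) := by
  unfold Col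
  rw [Finset.mem_filter, Fintype.mem_piFinset]
  constructor
  · rintro ⟨h1, h2⟩
    refine ⟨?_, ?_, h2⟩
    · intro v hv
      have := h1 v
      rw [if_pos hv] at this
      exact Finset.mem_range.1 this
    · intro v hv
      have := h1 v
      rw [if_neg hv] at this
      exact Finset.mem_singleton.1 this
  · rintro ⟨h1, h2, h3⟩
    refine ⟨?_, h3⟩
    intro v
    by_cases hv : v ∈ U
    · rw [if_pos hv]; exact Finset.mem_range.2 (h1 v hv)
    · rw [if_neg hv]; exact Finset.mem_singleton.2 (h2 v hv)

theorem cp_zero (adj : V → V → Prop) [DecidableRel adj] (U : Finset V) :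
    cp adj 0 U = if U.card = 0 then 1 else 0 := by
  unfold cp
  by_cases h : U.card = 0
  · rw [if_pos h]
    have hU : U = ∅ := Finset.card_eq_zero.1 h
    subst hU
    have : Col adj 0 (∅ : Finset V) = {fun _ => 0} := by
      ext κ
      rw [mem_Col, Finset.mem_singleton]
      constructor
      · rintro ⟨_, h2, _⟩
        funext v
        exact h2 v (by simp)
      · rintro rfl
        simp
    rw [this, Finset.sum_singleton, Finset.prod_empty]
  · rw [if_neg h]
    obtain ⟨v, hv⟩ := Finset.card_pos.1 (Nat.pos_of_ne_zero h)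
    apply Finset.sum_eq_zero
    intro κ hκ
    rw [mem_Col] at hκ
    exact absurd (hκ.1 v hv) (Nat.not_lt_zero _)

open Classical in
theorem cp_succ (adj : V → V → Prop) [DecidableRel adj] (k : ℕ) (U : Finset V) :
    cp adj (k + 1) U =
      ∑ S ∈ U.powerset, if Stab adj S then X k ^ S.card * cp adj k (U \ S) else 0 := by
  unfold cp
  rw [← Finset.sum_fiberwise_of_maps_to (s := Col adj (k + 1) U) (t := U.powerset)
    (g := fun κ => U.filter (fun v => κ v = k))
    (fun κ _ => Finset.mem_powerset.2 (Finset.filter_subset _ _))]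
  apply Finset.sum_congr rfl
  intro S hS
  rw [Finset.mem_powerset] at hS
  by_cases hst : Stab adj S
  · rw [if_pos hst, Finset.mul_sum]
    refine Finset.sum_bij' (fun κ _ => fun v => if v ∈ S then 0 else κ v)
      (fun κ _ => fun v => if v ∈ S then k else κ v) ?_ ?_ ?_ ?_ ?_
    · intro κ hκ
      rw [Finset.mem_filter, mem_Col] at hκ
      obtain ⟨⟨h1, h2, h3⟩, h4⟩ := hκ
      have hS' : ∀ v, v ∈ S ↔ v ∈ U ∧ κ v = k := by
        intro v; rw [← h4, Finset.mem_filter]
      rw [mem_Col]
      refine ⟨?_, ?_, ?_⟩
      · intro v hv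
        rw [Finset.mem_sdiff] at hv
        show (if v ∈ S then 0 else κ v) < k
        rw [if_neg hv.2]
        have := h1 v hv.1
        have h5 : κ v ≠ k := fun h => hv.2 ((hS' v).2 ⟨hv.1, h⟩)
        omega
      · intro v hv
        show (if v ∈ S then 0 else κ v) = 0
        by_cases h : v ∈ S
        · rw [if_pos h]
        · rw [if_neg h]
          apply h2
          intro h'
          exact hv (Finset.mem_sdiff.2 ⟨h', h⟩)
      · intro u hu v hv huv
        rw [Finset.mem_sdiff] at hu hv
        show (if u ∈ S then 0 else κ u) ≠ (if v ∈ S then 0 else κ v)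
        rw [if_neg hu.2, if_neg hv.2]
        exact h3 u hu.1 v hv.1 huv
    · intro κ hκ
      rw [mem_Col] at hκ
      obtain ⟨h1, h2, h3⟩ := hκ
      have hlt : ∀ v, v ∈ U → v ∉ S → κ v < k := fun v hv hn =>
        h1 v (Finset.mem_sdiff.2 ⟨hv, hn⟩)
      rw [Finset.mem_filter, mem_Col]
      refine ⟨⟨?_, ?_, ?_⟩, ?_⟩
      · intro v hv
        show (if v ∈ S then k else κ v) < k + 1
        by_cases h : v ∈ S
        · rw [if_pos h]; omega
        · rw [if_neg h]
          have := hlt v hv h
          omega
      · intro v hv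
        show (if v ∈ S then k else κ v) = 0
        have h : v ∉ S := fun h => hv (hS h)
        rw [if_neg h]
        apply h2
        intro h'
        exact hv (Finset.mem_sdiff.1 h').1
      · intro u hu v hv huv
        show (if u ∈ S then k else κ u) ≠ (if v ∈ S then k else κ v)
        by_cases hu' : u ∈ S
        · by_cases hv' : v ∈ S
          · exact absurd huv (hst u hu' v hv')
          · rw [if_pos hu', if_neg hv']
            exact (hlt v hv hv').ne'
        · by_cases hv' : v ∈ S
          · rw [if_neg hu', if_pos hv']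
            exact (hlt u hu hu').ne
          · rw [if_neg hu', if_neg hv']
            exact h3 u (Finset.mem_sdiff.2 ⟨hu, hu'⟩) v (Finset.mem_sdiff.2 ⟨hv, hv'⟩) huv
      · ext v
        rw [Finset.mem_filter]
        constructor
        · rintro ⟨hv, h⟩
          by_contra hn
          have h' : (if v ∈ S then k else κ v) = k := h
          rw [if_neg hn] at h'
          exact (hlt v hv hn).ne h'
        · intro hv
          refine ⟨hS hv, ?_⟩
          show (if v ∈ S then k else κ v) = k
          rw [if_pos hv]
    · intro κ hκ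
      rw [Finset.mem_filter, mem_Col] at hκ
      obtain ⟨⟨h1, h2, h3⟩, h4⟩ := hκ
      funext v
      show (if v ∈ S then k else (if v ∈ S then 0 else κ v)) = κ v
      by_cases h : v ∈ S
      · rw [if_pos h]
        rw [← h4, Finset.mem_filter] at h
        exact h.2.symm
      · rw [if_neg h, if_neg h]
    · intro κ hκ
      rw [mem_Col] at hκ
      obtain ⟨h1, h2, h3⟩ := hκ
      funext v
      show (if v ∈ S then 0 else (if v ∈ S then k else κ v)) = κ v
      by_cases h : v ∈ S
      · rw [if_pos h]
        symm
        apply h2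
        intro h'
        exact (Finset.mem_sdiff.1 h').2 h
      · rw [if_neg h, if_neg h]
    · intro κ hκ
      rw [Finset.mem_filter, mem_Col] at hκ
      obtain ⟨⟨h1, h2, h3⟩, h4⟩ := hκ
      rw [← Finset.prod_sdiff hS, mul_comm]
      congr 1
      · rw [← Finset.prod_const]
        apply Finset.prod_congr rfl
        intro v hv
        rw [← h4, Finset.mem_filter] at hv
        rw [hv.2]
      · apply Finset.prod_congr rfl
        intro v hv
        rw [Finset.mem_sdiff] at hv
        show (X (κ v) : MvPolynomial ℕ ℤ) = X (if v ∈ S then 0 else κ v)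
        rw [if_neg hv.2]
  · rw [if_neg hst]
    apply Finset.sum_eq_zero
    intro κ hκ
    exfalso
    apply hst
    intro u hu v hv huv
    rw [Finset.mem_filter, mem_Col] at hκ
    obtain ⟨⟨h1, h2, h3⟩, h4⟩ := hκ
    rw [← h4, Finset.mem_filter] at hu hv
    exact h3 u hu.1 v hv.1 huv (hu.2.trans hv.2.symm)

end H157R3.SNP
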