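import Pool.Agent.H157R3.SNP.Branch

set_option autoImplicit false

/-! Partitions as lists, and the branching rule for them. -/

namespace H157R3.SNP

open MvPolynomial

/-- weakly decreasing list of positive numbers, all `≤ b` -/
def good : ℕ → List ℕ → Prop
  | _, [] => True
  | b, c :: t => (1 ≤ c ∧ c ≤ b) ∧ good c t

/-- partitions of `n` with parts `≤ b` (`f` is fuel) -/
def pl : ℕ → ℕ → ℕ → List (List ℕ)
  | 0, _, n => if n = 0 then [[]] else []
  | f + 1, b, n => if n = 0 then [[]] else
      (List.range (min b n)).flatMap fun c => (pl f (c + 1) (n - (c + 1))).map ((c + 1) :: ·)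

theorem good_sum_zero {b : ℕ} {l : List ℕ} (h : good b l) (hs : l.sum = 0) : l = [] := by
  cases l with
  | nil => rfl
  | cons c t =>
    simp only [good, List.sum_cons] at h hs
    omega

theorem mem_pl (f : ℕ) : ∀ (b n : ℕ), n ≤ f → ∀ l : List ℕ,
    l ∈ pl f b n ↔ (good b l ∧ l.sum = n) := by
  induction f with
  | zero =>
    intro b n hn l
    have hn0 : n = 0 := by omega
    subst hn0
    simp only [pl, if_true, List.mem_singleton]
    constructor
    · rintro rfl; exact ⟨trivial, rfl⟩
    · rintro ⟨h1, h2⟩; exact good_sum_zero h1 h2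
  | succ f ih =>
    intro b n hn l
    by_cases hn0 : n = 0
    · subst hn0
      simp only [pl, if_true, List.mem_singleton]
      constructor
      · rintro rfl; exact ⟨trivial, rfl⟩
      · rintro ⟨h1, h2⟩; exact good_sum_zero h1 h2
    · simp only [pl, if_neg hn0, List.mem_flatMap, List.mem_range, List.mem_map]
      constructor
      · rintro ⟨c, hc, t, ht, rfl⟩
        have hc' : c + 1 ≤ n := by omega
        rw [ih (c + 1) (n - (c + 1)) (by omega) t] at ht
        refine ⟨⟨⟨by omega, by omega⟩, ht.1⟩, ?_⟩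
        rw [List.sum_cons, ht.2]
        omega
      · rintro ⟨h1, h2⟩
        cases l with
        | nil => simp at h2; omega
        | cons c t =>
          simp only [good, List.sum_cons] at h1 h2
          refine ⟨c - 1, by omega, t, ?_, ?_⟩
          · rw [ih (c - 1 + 1) (n - (c - 1 + 1)) (by omega) t]
            have : c - 1 + 1 = c := by omega
            rw [this]
            exact ⟨h1.2, by omega⟩
          · have : c - 1 + 1 = c := by omega
            rw [this]

theorem nodup_pl (f : ℕ) : ∀ (b n : ℕ), (pl f b n).Nodup := by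
  induction f with
  | zero =>
    intro b n
    by_cases h : n = 0
    · simp [pl, h]
    · simp [pl, h]
  | succ f ih =>
    intro b n
    by_cases h : n = 0
    · simp [pl, h]
    · simp only [pl, if_neg h]
      rw [List.nodup_flatMap]
      constructor
      · intro c _
        exact (ih (c + 1) (n - (c + 1))).map (by intro x y hxy; simpa using hxy)
      · refine List.Pairwise.imp_of_mem ?_ (List.nodup_range (n := min b n))
        intro c d _ _ hcd
        simp only [Function.onFun]
        intro l h1 h2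
        rw [List.mem_map] at h1 h2
        obtain ⟨t, _, rfl⟩ := h1
        obtain ⟨t', _, h3⟩ := h2
        simp only [List.cons.injEq] at h3
        omega

/-- partitions of `n ≤ 13` -/
def PL (n : ℕ) : List (List ℕ) := pl 13 n n

theorem mem_PL {n : ℕ} (hn : n ≤ 13) (l : List ℕ) :
    l ∈ PL n ↔ (good n l ∧ l.sum = n) := mem_pl 13 n n hn l

theorem nodup_PL (n : ℕ) : (PL n).Nodup := nodup_pl 13 n n

theorem good_le_head {b : ℕ} {l : List ℕ} (h : good b l) : ∀ x ∈ l, 1 ≤ x ∧ x ≤ b := by
  induction l generalizing b with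
  | nil => intro x hx; simp at hx
  | cons c t ih =>
    intro x hx
    simp only [good] at h
    rw [List.mem_cons] at hx
    rcases hx with rfl | hx
    · exact h.1
    · have := ih h.2 x hx
      omega

theorem good_sorted {b : ℕ} {l : List ℕ} (h : good b l) : l.SortedGE := by
  rw [List.sortedGE_iff_pairwise]
  induction l generalizing b with
  | nil => exact List.Pairwise.nil
  | cons c t ih =>
    simp only [good] at h
    refine List.Pairwise.cons ?_ (ih h.2)
    intro x hx
    exact (good_le_head h.2 x hx).2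

theorem good_of_sorted {b : ℕ} {l : List ℕ} (h : l.SortedGE) (hpos : ∀ x ∈ l, 0 < x)
    (hb : ∀ x ∈ l, x ≤ b) : good b l := by
  rw [List.sortedGE_iff_pairwise] at h
  induction l generalizing b with
  | nil => trivial
  | cons c t ih =>
    rw [List.pairwise_cons] at h
    refine ⟨⟨hpos c (by simp), hb c (by simp)⟩, ih h.2 (fun x hx => hpos x (by simp [hx])) ?_⟩
    intro x hx
    exact h.1 x hx

/-- the Young diagram with the given rows -/
noncomputable def yd (l : List ℕ) : YoungDiagram :=
  if h : l.SortedGE then YoungDiagram.ofRowLens l h else ⊥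

theorem mem_yd {l : List ℕ} (h : l.SortedGE) (i j : ℕ) : (i, j) ∈ yd l ↔ j < l.getD i 0 := by
  unfold yd
  rw [dif_pos h, YoungDiagram.mem_ofRowLens]
  constructor
  · rintro ⟨h1, h2⟩
    simp only at h1 h2
    rw [List.getD_eq_getElem _ _ h1]
    exact h2
  · intro h2
    by_cases h1 : i < l.length
    · refine ⟨h1, ?_⟩
      rw [List.getD_eq_getElem _ _ h1] at h2
      exact h2
    · rw [List.getD_eq_default _ _ (not_lt.1 h1)] at h2
      omega

theorem card_cellsOfRowLens (l : List ℕ) : (YoungDiagram.cellsOfRowLens l).card = l.sum := by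
  induction l with
  | nil => rfl
  | cons w ws ih =>
    have : YoungDiagram.cellsOfRowLens (w :: ws) =
      ({0} : Finset ℕ) ×ˢ Finset.range w ∪
      (YoungDiagram.cellsOfRowLens ws).map
        (Function.Embedding.prodMap ⟨_, Nat.succ_injective⟩ (Function.Embedding.refl ℕ)) := rfl
    rw [this, Finset.card_union_of_disjoint, Finset.card_map, ih, List.sum_cons]
    · simp
    · rw [Finset.disjoint_left]
      rintro ⟨i, j⟩ h1 h2
      simp only [Finset.mem_product, Finset.mem_singleton] at h1
      rw [Finset.mem_map] at h2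
      obtain ⟨⟨a, b⟩, _, h3⟩ := h2
      simp only [Function.Embedding.prodMap, Function.Embedding.coeFn_mk, Prod.map,
        Prod.mk.injEq] at h3
      omega

theorem card_yd {l : List ℕ} (h : l.SortedGE) : (yd l).card = l.sum := by
  unfold yd
  rw [dif_pos h]
  exact card_cellsOfRowLens l

theorem yd_rowLens (ν : YoungDiagram) : yd ν.rowLens = ν := by
  unfold yd
  rw [dif_pos ν.rowLens_sorted]
  exact YoungDiagram.ofRowLens_to_rowLens_eq_self

theorem rowLens_yd {b : ℕ} {l : List ℕ} (h : good b l) : (yd l).rowLens = l := by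
  unfold yd
  rw [dif_pos (good_sorted h)]
  exact YoungDiagram.rowLens_ofRowLens_eq_self (fun x hx => (good_le_head h x hx).1)

theorem sum_rowLens (ν : YoungDiagram) : ν.rowLens.sum = ν.card := by
  rw [← card_yd ν.rowLens_sorted, yd_rowLens]

theorem rowLens_mem_PL (ν : YoungDiagram) (h : ν.card ≤ 13) : ν.rowLens ∈ PL ν.card := by
  rw [mem_PL h]
  refine ⟨good_of_sorted ν.rowLens_sorted (ν.pos_of_mem_rowLens) ?_, sum_rowLens ν⟩
  intro x hx
  rw [← sum_rowLens]
  exact List.single_le_sum (fun _ _ => Nat.zero_le _) x hx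

/-- interlacing test -/
def ilace : List ℕ → List ℕ → Bool
  | [], [] => true
  | [], _ :: _ => false
  | _ :: μ, [] => μ.isEmpty
  | a :: μ, c :: ν => Nat.ble c a && (Nat.ble (μ.headD 0) c && ilace μ ν)

theorem ilace_iff (μ ν : List ℕ) : ∀ {b b' : ℕ}, good b μ → good b' ν →
    (ilace μ ν = true ↔
      ∀ i, ν.getD i 0 ≤ μ.getD i 0 ∧ μ.getD (i + 1) 0 ≤ ν.getD i 0) := by
  induction μ generalizing ν with
  | nil =>
    intro b b' h h'
    cases ν with
    | nil => simp [ilace]
    | cons c t =>
      simp only [good] at h'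
      simp only [ilace, Bool.false_eq_true, false_iff, not_forall]
      refine ⟨0, ?_⟩
      simp
      omega
  | cons a μ ih =>
    intro b b' h h'
    simp only [good] at h
    cases ν with
    | nil =>
      simp only [ilace, List.isEmpty_iff]
      constructor
      · rintro rfl i
        cases i with
        | zero => simp
        | succ i => simp
      · intro hh
        cases μ with
        | nil => rfl
        | cons d μ =>
          have := (hh 0).2
          simp only [good] at h
          simp at this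
          omega
    | cons c ν =>
      simp only [good] at h'
      simp only [ilace, Bool.and_eq_true, Nat.ble_eq]
      rw [ih ν h.2 h'.2]
      have hd : μ.headD 0 = μ.getD 0 0 := by cases μ <;> rfl
      rw [hd]
      constructor
      · rintro ⟨h1, h2, h3⟩ i
        cases i with
        | zero => exact ⟨by simpa using h1, by simpa using h2⟩
        | succ i => simpa using h3 i
      · intro hh
        refine ⟨by simpa using (hh 0).1, by simpa using (hh 0).2, ?_⟩
        intro i
        simpa using hh (i + 1)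

theorem hs_yd {μ ν : List ℕ} (hμ : μ.SortedGE) (hν : ν.SortedGE) :
    HS (yd μ) (yd ν) ↔ ∀ i, ν.getD i 0 ≤ μ.getD i 0 ∧ μ.getD (i + 1) 0 ≤ ν.getD i 0 := by
  constructor
  · rintro ⟨h1, h2⟩ i
    constructor
    · by_contra hn
      rw [not_le] at hn
      have : (i, μ.getD i 0) ∈ yd ν := (mem_yd hν _ _).2 hn
      exact lt_irrefl _ ((mem_yd hμ _ _).1 (h1 this))
    · by_contra hn
      rw [not_le] at hn
      have : (i + 1, ν.getD i 0) ∈ yd μ := (mem_yd hμ _ _).2 hn
      exact lt_irrefl _ ((mem_yd hν _ _).1 (h2 _ _ this))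
  · intro h
    refine ⟨?_, ?_⟩
    · rintro ⟨i, j⟩ hm
      rw [mem_yd hν] at hm
      rw [mem_yd hμ]
      exact lt_of_lt_of_le hm (h i).1
    · intro i j hm
      rw [mem_yd hμ] at hm
      rw [mem_yd hν]
      exact lt_of_lt_of_le hm (h i).2

/-- branching rule on lists -/
theorem finsum_hs {n : ℕ} (hn : n ≤ 13) {μ : List ℕ} (hμ : μ ∈ PL n)
    (g : YoungDiagram → MvPolynomial ℕ ℤ) :
    ∑ᶠ ν : {ν : YoungDiagram // HS (yd μ) ν}, g ν.1 =
      ∑ m ∈ Finset.range (n + 1),
        ((PL m).map (fun l => if ilace μ l = true then g (yd l) else 0)).sum := by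
  classical
  obtain ⟨gμ, sμ⟩ := (mem_PL hn μ).1 hμ
  have hcard : (yd μ).card = n := by rw [card_yd (good_sorted gμ), sμ]
  have : Fintype {ν : YoungDiagram // HS (yd μ) ν} := Fintype.ofFinite _
  rw [finsum_eq_sum_of_fintype]
  have e1 : ∀ m ∈ Finset.range (n + 1),
      ((PL m).map (fun l => if ilace μ l = true then g (yd l) else 0)).sum =
      ∑ l ∈ (PL m).toFinset.filter (fun l => ilace μ l = true), g (yd l) := by
    intro m _
    rw [← List.sum_toFinset _ (nodup_PL m), Finset.sum_filter]
  rw [Finset.sum_congr rfl e1, Finset.sum_sigma']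
  symm
  refine Finset.sum_bij' (fun x _ => if h : HS (yd μ) (yd x.2) then
      (⟨yd x.2, h⟩ : {ν : YoungDiagram // HS (yd μ) ν}) else
      ⟨yd μ, ⟨le_rfl, fun i j hm => (yd μ).up_left_mem (Nat.le_succ i) le_rfl hm⟩⟩)
    (fun ν _ => (⟨ν.1.card, ν.1.rowLens⟩ : (Σ _ : ℕ, List ℕ))) ?_ ?_ ?_ ?_ ?_
  · intro x _
    exact Finset.mem_univ _
  · rintro ⟨ν, hν⟩ _
    have hle : ν.card ≤ n := by
      rw [← hcard]
      exact Finset.card_le_card (YoungDiagram.cells_subset_iff.2 hν.1)
    rw [Finset.mem_sigma]
    refine ⟨by simp only [Finset.mem_range]; omega, ?_⟩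
    simp only [Finset.mem_filter, List.mem_toFinset]
    have hm := rowLens_mem_PL ν (hle.trans hn)
    refine ⟨hm, ?_⟩
    have gν := ((mem_PL (hle.trans hn) _).1 hm).1
    rw [ilace_iff μ _ gμ gν, ← hs_yd (good_sorted gμ) (good_sorted gν), yd_rowLens]
    exact hν
  · rintro ⟨m, l⟩ hx
    rw [Finset.mem_sigma] at hx
    simp only [Finset.mem_filter, List.mem_toFinset, Finset.mem_range] at hx
    have hm : m ≤ 13 := by omega
    obtain ⟨gl, sl⟩ := (mem_PL hm l).1 hx.2.1
    have hh : HS (yd μ) (yd l) := by
      rw [hs_yd (good_sorted gμ) (good_sorted gl), ← ilace_iff μ l gμ gl]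
      exact hx.2.2
    simp only [dif_pos hh]
    rw [rowLens_yd gl, card_yd (good_sorted gl), sl]
  · rintro ⟨ν, hν⟩ _
    have hh : HS (yd μ) (yd ν.rowLens) := by rw [yd_rowLens]; exact hν
    simp only [dif_pos hh]
    apply Subtype.ext
    exact yd_rowLens ν
  · rintro ⟨m, l⟩ hx
    rw [Finset.mem_sigma] at hx
    simp only [Finset.mem_filter, List.mem_toFinset, Finset.mem_range] at hx
    have hm : m ≤ 13 := by omega
    obtain ⟨gl, sl⟩ := (mem_PL hm l).1 hx.2.1
    have hh : HS (yd μ) (yd l) := by
      rw [hs_yd (good_sorted gμ) (good_sorted gl), ← ilace_iff μ l gμ gl]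
      exact hx.2.2
    simp only [dif_pos hh]

theorem Sch_branch {n : ℕ} (hn : n ≤ 13) {μ : List ℕ} (hμ : μ ∈ PL n) (k : ℕ) :
    Sch (k + 1) (yd μ) =
      ∑ m ∈ Finset.range (n + 1), X k ^ (n - m) *
        ((PL m).map (fun l => if ilace μ l = true then Sch k (yd l) else 0)).sum := by
  obtain ⟨gμ, sμ⟩ := (mem_PL hn μ).1 hμ
  have hcard : (yd μ).card = n := by rw [card_yd (good_sorted gμ), sμ]
  rw [Sch_succ, finsum_hs hn hμ (fun ν => Sch k ν * X k ^ ((yd μ).card - ν.card)), hcard]
  apply Finset.sum_congr rfl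
  intro m hm
  rw [Finset.mem_range] at hm
  have hm13 : m ≤ 13 := by omega
  rw [← List.sum_map_mul_left]
  congr 1
  apply List.map_congr_left
  intro l hl
  obtain ⟨gl, sl⟩ := (mem_PL hm13 l).1 hl
  rw [card_yd (good_sorted gl), sl]
  by_cases h : ilace μ l = true
  · rw [if_pos h, if_pos h, mul_comm]
  · rw [if_neg h, if_neg h, mul_zero]

theorem Sch_zero_list {n : ℕ} (hn : n ≤ 13) {μ : List ℕ} (hμ : μ ∈ PL n) :
    Sch 0 (yd μ) = if n = 0 then 1 else 0 := by
  obtain ⟨gμ, sμ⟩ := (mem_PL hn μ).1 hμ
  have hcard : (yd μ).card = n := by rw [card_yd (good_sorted gμ), sμ]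
  rw [Sch_zero, hcard]

end H157R3.SNP
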