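import Pool.Agent.H157R3.SNP.Types

set_option autoImplicit false

/-! Schur expansion of the colouring polynomials. -/

namespace H157R3.SNP

open MvPolynomial

/-- evaluation of a coefficient vector -/
noncomputable def ev (S : List ℕ → MvPolynomial ℕ ℤ) : List (List ℕ) → List ℤ → MvPolynomial ℕ ℤ
  | μ :: P, c :: v => (c : MvPolynomial ℕ ℤ) * S μ + ev S P v
  | _, _ => 0

theorem ev_vadd (S : List ℕ → MvPolynomial ℕ ℤ) (P : List (List ℕ)) :
    ∀ u v : List ℤ, u.length = P.length → v.length = P.length →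
      ev S P (vadd u v) = ev S P u + ev S P v := by
  induction P with
  | nil => intro u v _ _; simp [ev]
  | cons μ P ih =>
    intro u v hu hv
    cases u with
    | nil => simp at hu
    | cons a u =>
      cases v with
      | nil => simp at hv
      | cons b v =>
        simp only [List.length_cons, Nat.add_right_cancel_iff] at hu hv
        have : vadd (a :: u) (b :: v) = (a + b) :: vadd u v := rfl
        rw [this, ev, ev, ev, ih u v hu hv]
        push_cast
        ring

theorem ev_smul (S : List ℕ → MvPolynomial ℕ ℤ) (c : ℤ) (P : List (List ℕ)) :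
    ∀ v : List ℤ, ev S P (smulv c v) = (c : MvPolynomial ℕ ℤ) * ev S P v := by
  induction P with
  | nil => intro v; simp [ev]
  | cons μ P ih =>
    intro v
    cases v with
    | nil => simp [ev, smulv]
    | cons b v =>
      have : smulv c (b :: v) = (c * b) :: smulv c v := rfl
      rw [this, ev, ev, ih v]
      push_cast
      ring

theorem ev_zero (S : List ℕ → MvPolynomial ℕ ℤ) (P P' : List (List ℕ)) :
    ev S P (P'.map (fun _ => (0 : ℤ))) = 0 := by
  induction P generalizing P' with
  | nil => simp [ev]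
  | cons μ P ih =>
    cases P' with
    | nil => simp [ev]
    | cons μ' P' =>
      simp only [List.map_cons, ev]
      rw [ih P']
      simp

theorem ev_map (S : List ℕ → MvPolynomial ℕ ℤ) (P : List (List ℕ)) (φ : List ℕ → ℤ) :
    ev S P (P.map φ) = (P.map (fun μ => (φ μ : MvPolynomial ℕ ℤ) * S μ)).sum := by
  induction P with
  | nil => simp [ev]
  | cons μ P ih =>
    simp only [List.map_cons, ev, List.sum_cons]
    rw [ih]

theorem length_vadd (u v : List ℤ) (n : ℕ) (hu : u.length = n) (hv : v.length = n) :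
    (vadd u v).length = n := by
  unfold vadd
  rw [List.length_zipWith, hu, hv, min_self]

theorem length_smulv (c : ℤ) (v : List ℤ) : (smulv c v).length = v.length := by
  unfold smulv
  rw [List.length_map]

/-- the fold appearing in `lhs` -/
theorem ev_fold {α : Type} (S : List ℕ → MvPolynomial ℕ ℤ) (P : List (List ℕ)) (z : List ℤ)
    (hz : z.length = P.length) (hz' : ev S P z = 0) (cond : α → Bool) (b : α → ℤ) (w : α → List ℤ)
    (l : List α) (hw : ∀ s ∈ l, cond s = true → (w s).length = P.length) :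
    (l.foldr (fun s acc => if cond s = true then vadd (smulv (b s) (w s)) acc else acc) z).length
      = P.length ∧
    ev S P (l.foldr (fun s acc => if cond s = true then vadd (smulv (b s) (w s)) acc else acc) z) =
      (l.map (fun s => if cond s = true then (b s : MvPolynomial ℕ ℤ) * ev S P (w s) else 0)).sum := by
  induction l with
  | nil => exact ⟨hz, by simpa using hz'⟩
  | cons s l ih =>
    obtain ⟨h1, h2⟩ := ih (fun s hs => hw s (List.mem_cons_of_mem _ hs))
    simp only [List.foldr_cons, List.map_cons, List.sum_cons]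
    by_cases h : cond s = true
    · rw [if_pos h, if_pos h]
      have hl := hw s List.mem_cons_self h
      refine ⟨length_vadd _ _ _ (by rw [length_smulv, hl]) h1, ?_⟩
      rw [ev_vadd _ _ _ _ (by rw [length_smulv, hl]) h1, h2, ev_smul]
    · rw [if_neg h, if_neg h]
      exact ⟨h1, by rw [h2, zero_add]⟩

/-- expansion of `ev (Sch (k+1))` -/
theorem ev_branch (k n : ℕ) (hn : n ≤ 13) (P : List (List ℕ)) (hP : ∀ μ ∈ P, μ ∈ PL n) :
    ∀ v : List ℤ, ev (fun μ => Sch (k + 1) (yd μ)) P v =
      ∑ m ∈ Finset.range (n + 1), X k ^ (n - m) *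
        ((PL m).map (fun ν => ((dotI ν P v : ℤ) : MvPolynomial ℕ ℤ) * Sch k (yd ν))).sum := by
  induction P with
  | nil =>
    intro v
    simp [ev, dotI]
  | cons μ P ih =>
    intro v
    cases v with
    | nil => simp [ev, dotI]
    | cons c v =>
      rw [ev, ih (fun μ hμ => hP μ (List.mem_cons_of_mem _ hμ)) v,
        Sch_branch hn (hP μ List.mem_cons_self) k, Finset.mul_sum, ← Finset.sum_add_distrib]
      apply Finset.sum_congr rfl
      intro m _
      rw [mul_left_comm, ← mul_add]
      congr 1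
      rw [← List.sum_map_mul_left, ← List.sum_map_add]
      congr 1
      apply List.map_congr_left
      intro ν _
      simp only [dotI]
      by_cases h : ilace μ ν = true
      · simp only [if_pos h]
        push_cast
        ring
      · simp only [if_neg h]
        push_cast
        ring

theorem mem_subs (c1 r1 c2 r2 : ℕ) (s : ℕ × ℕ × ℕ × ℕ) (h : s ∈ subs c1 r1 c2 r2) :
    s.1 ≤ c1 ∧ s.2.1 ≤ r1 ∧ s.2.2.1 ≤ c2 ∧ s.2.2.2 ≤ r2 := by
  unfold subs at h
  simp only [List.mem_flatMap, List.mem_range] at h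
  obtain ⟨s1, h1, t1, h2, s2, h3, t2, h4, h5⟩ := h
  by_cases ho : okb s1 t1 s2 t2 = true
  · rw [if_pos ho, List.mem_singleton] at h5
    subst h5
    refine ⟨?_, ?_, ?_, ?_⟩
    · show s1 ≤ c1; omega
    · show t1 ≤ r1; omega
    · show s2 ≤ c2; omega
    · show t2 ≤ r2; omega
  · rw [if_neg ho] at h5
    simp at h5

theorem sum_flatMap_range {α : Type} (n : ℕ) (h : ℕ → List α) (φ : α → MvPolynomial ℕ ℤ) :
    (((List.range n).flatMap h).map φ).sum = ∑ i ∈ Finset.range n, ((h i).map φ).sum := by
  induction n with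
  | zero => simp
  | succ n ih =>
    rw [List.range_succ, List.flatMap_append, List.map_append, List.sum_append, ih,
      Finset.sum_range_succ]
    simp

theorem R4_list (c1 r1 c2 r2 : ℕ) (g : ℕ → ℕ → ℕ → ℕ → MvPolynomial ℕ ℤ) :
    R4 c1 r1 c2 r2 (fun s1 t1 s2 t2 => if okb s1 t1 s2 t2 = true then g s1 t1 s2 t2 else 0) =
      ((subs c1 r1 c2 r2).map (fun s =>
        (((c1.choose s.1 * r1.choose s.2.1 * c2.choose s.2.2.1 * r2.choose s.2.2.2 : ℕ) : ℤ) :
          MvPolynomial ℕ ℤ) * g s.1 s.2.1 s.2.2.1 s.2.2.2)).sum := by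
  unfold R4 bs subs
  rw [sum_flatMap_range]
  apply Finset.sum_congr rfl
  intro s1 _
  rw [sum_flatMap_range, Finset.mul_sum]
  apply Finset.sum_congr rfl
  intro t1 _
  rw [sum_flatMap_range, Finset.mul_sum, Finset.mul_sum]
  apply Finset.sum_congr rfl
  intro s2 _
  rw [sum_flatMap_range, Finset.mul_sum, Finset.mul_sum, Finset.mul_sum]
  apply Finset.sum_congr rfl
  intro t2 _
  by_cases h : okb s1 t1 s2 t2 = true
  · simp only [if_pos h]
    simp only [List.map_cons, List.map_nil, List.sum_cons, List.sum_nil]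
    push_cast
    ring
  · simp only [if_neg h]
    simp

theorem sum_list_swap {α : Type} (l : List α) (n : ℕ) (F : ℕ → α → MvPolynomial ℕ ℤ) :
    ∑ m ∈ Finset.range n, (l.map (F m)).sum = (l.map (fun s => ∑ m ∈ Finset.range n, F m s)).sum := by
  induction l with
  | nil => simp
  | cons a l ih =>
    simp only [List.map_cons, List.sum_cons, Finset.sum_add_distrib, ih]

theorem fp_eq (k : ℕ) : ∀ c1 r1 c2 r2 : ℕ, c1 ≤ 4 → r1 ≤ 2 → c2 ≤ 5 → r2 ≤ 2 →
    fp k c1 r1 c2 r2 = ev (fun μ => Sch k (yd μ)) (PL (c1 + r1 + c2 + r2)) (tab c1 r1 c2 r2) := by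
  induction k with
  | zero =>
    intro c1 r1 c2 r2 h1 h2 h3 h4
    rw [fp]
    by_cases h : c1 + r1 + c2 + r2 = 0
    · rw [if_pos h]
      have e1 : c1 = 0 := by omega
      have e2 : r1 = 0 := by omega
      have e3 : c2 = 0 := by omega
      have e4 : r2 = 0 := by omega
      subst e1 e2 e3 e4
      have eP : PL (0 + 0 + 0 + 0) = [[]] := rfl
      have eT : tab 0 0 0 0 = [1] := by decide +kernel
      rw [eP, eT, ev, ev]
      have hm : ([] : List ℕ) ∈ PL 0 := by
        rw [mem_PL (by norm_num)]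
        exact ⟨trivial, rfl⟩
      rw [Sch_zero_list (by norm_num : 0 ≤ 13) hm]
      simp
      intro a
      simp
    · rw [if_neg h]
      have key : ∀ (P : List (List ℕ)), (∀ μ ∈ P, μ ∈ PL (c1 + r1 + c2 + r2)) → ∀ v : List ℤ,
          ev (fun μ => Sch 0 (yd μ)) P v = 0 := by
        intro P
        induction P with
        | nil => intro _ v; simp [ev]
        | cons μ P ih =>
          intro hP v
          cases v with
          | nil => simp [ev]
          | cons c v =>
            rw [ev, ih (fun μ hμ => hP μ (List.mem_cons_of_mem _ hμ)) v,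
              Sch_zero_list (by omega) (hP μ List.mem_cons_self), if_neg h]
            simp
      rw [key _ (fun _ h => h)]
  | succ k ih =>
    intro c1 r1 c2 r2 h1 h2 h3 h4
    obtain ⟨_, hchk⟩ := chk_spec c1 r1 c2 r2 h1 h2 h3 h4
    set n := c1 + r1 + c2 + r2 with hn
    have hn13 : n ≤ 13 := by omega
    rw [fp, R4_list, ev_branch k n hn13 (PL n) (fun _ h => h)]
    have step : ∀ m ∈ Finset.range (n + 1),
        X k ^ (n - m) * ((PL m).map (fun ν => ((dotI ν (PL n) (tab c1 r1 c2 r2) : ℤ) :
          MvPolynomial ℕ ℤ) * Sch k (yd ν))).sum =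
        ((subs c1 r1 c2 r2).map (fun s =>
          if Nat.beq (s.1 + s.2.1 + s.2.2.1 + s.2.2.2 + m) (c1 + r1 + c2 + r2) = true then
          X k ^ (n - m) * ((((c1.choose s.1 * r1.choose s.2.1 * c2.choose s.2.2.1 *
            r2.choose s.2.2.2 : ℕ) : ℤ) : MvPolynomial ℕ ℤ) *
            ev (fun μ => Sch k (yd μ)) (PL m)
              (tab (c1 - s.1) (r1 - s.2.1) (c2 - s.2.2.1) (r2 - s.2.2.2))) else 0)).sum := by
      intro m hm
      rw [Finset.mem_range] at hm
      have hmn : m ≤ n := by omega
      have hPm : PLd.getD m [] = PL m := PLd_eq m (by omega)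
      have hPn : PLd.getD (c1 + r1 + c2 + r2) [] = PL n := PLd_eq n hn13
      have e := hchk m hmn
      have er : rhs m c1 r1 c2 r2 = (PL m).map (fun ν => dotI ν (PL n) (tab c1 r1 c2 r2)) := by
        unfold rhs
        rw [hPm, hPn]
      rw [← ev_map (fun μ => Sch k (yd μ)) (PL m) (fun ν => dotI ν (PL n) (tab c1 r1 c2 r2)),
        ← er, ← e]
      unfold lhs
      rw [hPm]
      have hfold := ev_fold (fun μ => Sch k (yd μ)) (PL m) ((PL m).map (fun _ => (0 : ℤ)))
        (by rw [List.length_map]) (ev_zero _ _ _)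
        (fun s : ℕ × ℕ × ℕ × ℕ =>
          Nat.beq (s.1 + s.2.1 + s.2.2.1 + s.2.2.2 + m) (c1 + r1 + c2 + r2))
        (fun s => ((c1.choose s.1 * r1.choose s.2.1 * c2.choose s.2.2.1 *
            r2.choose s.2.2.2 : ℕ) : ℤ))
        (fun s => tab (c1 - s.1) (r1 - s.2.1) (c2 - s.2.2.1) (r2 - s.2.2.2))
        (subs c1 r1 c2 r2) ?_
      · rw [hfold.2, ← List.sum_map_mul_left]
        congr 1
        apply List.map_congr_left
        intro s _
        by_cases hc : Nat.beq (s.1 + s.2.1 + s.2.2.1 + s.2.2.2 + m) (c1 + r1 + c2 + r2) = true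
        · simp only [if_pos hc]
        · simp only [if_neg hc, mul_zero]
      · intro s hs hc
        obtain ⟨g1, g2, g3, g4⟩ := mem_subs _ _ _ _ s hs
        rw [Nat.beq_eq] at hc
        have := (chk_spec (c1 - s.1) (r1 - s.2.1) (c2 - s.2.2.1) (r2 - s.2.2.2) (by omega)
          (by omega) (by omega) (by omega)).1
        rw [this]
        congr 2
        omega
    rw [Finset.sum_congr rfl step, sum_list_swap]
    congr 1
    apply List.map_congr_left
    intro s hs
    obtain ⟨g1, g2, g3, g4⟩ := mem_subs _ _ _ _ s hs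
    have hlen : s.1 + s.2.1 + s.2.2.1 + s.2.2.2 ≤ n := by omega
    rw [Finset.sum_eq_single (n - (s.1 + s.2.1 + s.2.2.1 + s.2.2.2))]
    · have hb : Nat.beq (s.1 + s.2.1 + s.2.2.1 + s.2.2.2 +
          (n - (s.1 + s.2.1 + s.2.2.1 + s.2.2.2))) (c1 + r1 + c2 + r2) = true := by
        rw [Nat.beq_eq]; omega
      rw [if_pos hb, ih _ _ _ _ (by omega) (by omega) (by omega) (by omega)]
      have e1 : n - (n - (s.1 + s.2.1 + s.2.2.1 + s.2.2.2)) =
        s.1 + s.2.1 + s.2.2.1 + s.2.2.2 := by omega
      have e2 : c1 - s.1 + (r1 - s.2.1) + (c2 - s.2.2.1) + (r2 - s.2.2.2) =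
        n - (s.1 + s.2.1 + s.2.2.1 + s.2.2.2) := by omega
      rw [e1, e2]
      ring
    · intro m _ hm
      have hb : ¬ Nat.beq (s.1 + s.2.1 + s.2.2.1 + s.2.2.2 + m) (c1 + r1 + c2 + r2) = true := by
        rw [Nat.beq_eq]; omega
      rw [if_neg hb]
    · intro hm
      exfalso
      apply hm
      rw [Finset.mem_range]
      omega

end H157R3.SNP
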