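import Pool.Agent.H157R3.SNP.Graph
import Pool.Agent.H157R3.SNP.Check

set_option autoImplicit false

/-! The concrete graph: a blow-up of the path `P₄` with parts of sizes `5, 2, 2, 4`. -/

namespace H157R3.SNP

open MvPolynomial

/-- labels of the vertices: `0 = C1` (4), `1 = R1` (2), `2 = C2` (5), `3 = R2` (2) -/
def lab (v : Fin 13) : Fin 4 :=
  if v.val < 4 then 0 else if v.val < 6 then 1 else if v.val < 11 then 2 else 3

/-- adjacency of labels -/
def adjL (i j : Fin 4) : Prop :=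
  (i = 1 ∧ j = 2) ∨ (i = 2 ∧ j = 1) ∨ (i = 3 ∧ j = 0) ∨ (i = 0 ∧ j = 3) ∨
    (i = 1 ∧ j = 3) ∨ (i = 3 ∧ j = 1)

instance : DecidableRel adjL := fun i j => by unfold adjL; infer_instance

/-- adjacency -/
def adj (u v : Fin 13) : Prop := adjL (lab u) (lab v)

instance : DecidableRel adj := fun i j => by unfold adj; infer_instance

/-- number of vertices of `U` with label `i` -/
def cnt (U : Finset (Fin 13)) (i : Fin 4) : ℕ := (U.filter (fun v => lab v = i)).card

/-- binomial sum -/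
noncomputable def bs {R : Type} [CommSemiring R] (n : ℕ) (φ : ℕ → R) : R :=
  ∑ s ∈ Finset.range (n + 1), (n.choose s : R) * φ s

theorem bs_zero {R : Type} [CommSemiring R] (φ : ℕ → R) : bs 0 φ = φ 0 := by
  simp [bs]

theorem bs_add {R : Type} [CommSemiring R] (n : ℕ) (φ ψ : ℕ → R) :
    bs n (fun s => φ s + ψ s) = bs n φ + bs n ψ := by
  unfold bs
  rw [← Finset.sum_add_distrib]
  apply Finset.sum_congr rfl
  intro s _
  ring

theorem bs_succ {R : Type} [CommSemiring R] (n : ℕ) (φ : ℕ → R) :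
    bs (n + 1) φ = bs n φ + bs n (fun s => φ (s + 1)) := by
  unfold bs
  rw [Finset.sum_range_succ' _ (n + 1)]
  have e : ∀ s ∈ Finset.range (n + 1), (((n + 1).choose (s + 1) : ℕ) : R) * φ (s + 1) =
      (n.choose s : R) * φ (s + 1) + (n.choose (s + 1) : R) * φ (s + 1) := by
    intro s _
    rw [Nat.choose_succ_succ]
    push_cast
    ring
  rw [Finset.sum_congr rfl e, Finset.sum_add_distrib]
  have e2 : (∑ s ∈ Finset.range (n + 1), (n.choose s : R) * φ s) =
      (∑ s ∈ Finset.range (n + 1), (n.choose (s + 1) : R) * φ (s + 1)) +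
        (((n + 1).choose 0 : ℕ) : R) * φ 0 := by
    have := Finset.sum_range_succ' (fun s => (n.choose s : R) * φ s) (n + 1)
    rw [Finset.sum_range_succ (fun s => (n.choose s : R) * φ s) (n + 1)] at this
    rw [Nat.choose_succ_self] at this
    simp only [Nat.cast_zero, zero_mul, add_zero, Nat.choose_zero_right] at this ⊢
    exact this
  rw [e2]
  ring

/-- sum over types -/
noncomputable def R4 {R : Type} [CommSemiring R] (c1 r1 c2 r2 : ℕ) (g : ℕ → ℕ → ℕ → ℕ → R) : R :=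
  bs c1 fun s1 => bs r1 fun t1 => bs c2 fun s2 => bs r2 fun t2 => g s1 t1 s2 t2

theorem R4_0 {R : Type} [CommSemiring R] (c1 r1 c2 r2 : ℕ) (g : ℕ → ℕ → ℕ → ℕ → R) :
    R4 (c1 + 1) r1 c2 r2 g = R4 c1 r1 c2 r2 g + R4 c1 r1 c2 r2 (fun a => g (a + 1)) := by
  unfold R4
  rw [bs_succ]

theorem R4_1 {R : Type} [CommSemiring R] (c1 r1 c2 r2 : ℕ) (g : ℕ → ℕ → ℕ → ℕ → R) :
    R4 c1 (r1 + 1) c2 r2 g = R4 c1 r1 c2 r2 g + R4 c1 r1 c2 r2 (fun a b => g a (b + 1)) := by
  unfold R4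
  rw [← bs_add]
  congr 1
  funext s1
  rw [bs_succ]

theorem R4_2 {R : Type} [CommSemiring R] (c1 r1 c2 r2 : ℕ) (g : ℕ → ℕ → ℕ → ℕ → R) :
    R4 c1 r1 (c2 + 1) r2 g = R4 c1 r1 c2 r2 g + R4 c1 r1 c2 r2 (fun a b c => g a b (c + 1)) := by
  unfold R4
  rw [← bs_add]
  congr 1
  funext s1
  rw [← bs_add]
  congr 1
  funext t1
  rw [bs_succ]

theorem R4_3 {R : Type} [CommSemiring R] (c1 r1 c2 r2 : ℕ) (g : ℕ → ℕ → ℕ → ℕ → R) :
    R4 c1 r1 c2 (r2 + 1) g =
      R4 c1 r1 c2 r2 g + R4 c1 r1 c2 r2 (fun a b c d => g a b c (d + 1)) := by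
  unfold R4
  rw [← bs_add]
  congr 1
  funext s1
  rw [← bs_add]
  congr 1
  funext t1
  rw [← bs_add]
  congr 1
  funext s2
  rw [bs_succ]

theorem cnt_insert {U : Finset (Fin 13)} {v : Fin 13} (hv : v ∉ U) (i : Fin 4) :
    cnt (insert v U) i = cnt U i + if lab v = i then 1 else 0 := by
  unfold cnt
  rw [Finset.filter_insert]
  by_cases h : lab v = i
  · rw [if_pos h, if_pos h, Finset.card_insert_of_notMem]
    intro h'
    exact hv (Finset.mem_filter.1 h').1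
  · rw [if_neg h, if_neg h, add_zero]

theorem sum_powerset {R : Type} [CommSemiring R] (U : Finset (Fin 13)) :
    ∀ g : ℕ → ℕ → ℕ → ℕ → R,
    ∑ S ∈ U.powerset, g (cnt S 0) (cnt S 1) (cnt S 2) (cnt S 3) =
      R4 (cnt U 0) (cnt U 1) (cnt U 2) (cnt U 3) g := by
  induction U using Finset.induction_on with
  | empty =>
    intro g
    simp [cnt, R4, bs_zero]
  | insert v U hv ih =>
    intro g
    rw [Finset.sum_powerset_insert hv]
    have hS : ∀ S ∈ U.powerset, g (cnt (insert v S) 0) (cnt (insert v S) 1)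
        (cnt (insert v S) 2) (cnt (insert v S) 3) =
        g (cnt S 0 + if lab v = 0 then 1 else 0) (cnt S 1 + if lab v = 1 then 1 else 0)
          (cnt S 2 + if lab v = 2 then 1 else 0) (cnt S 3 + if lab v = 3 then 1 else 0) := by
      intro S hS
      have hvS : v ∉ S := fun h => hv (Finset.mem_powerset.1 hS h)
      rw [cnt_insert hvS, cnt_insert hvS, cnt_insert hvS, cnt_insert hvS]
    rw [Finset.sum_congr rfl hS, cnt_insert hv, cnt_insert hv, cnt_insert hv, cnt_insert hv]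
    have h4 : lab v = 0 ∨ lab v = 1 ∨ lab v = 2 ∨ lab v = 3 := by
      generalize lab v = x
      revert x
      decide
    rcases h4 with h | h | h | h
    · simp only [h, if_true, Fin.reduceEq, if_false, add_zero]
      rw [R4_0, ih g, ← ih (fun a => g (a + 1))]
    · simp only [h, if_true, Fin.reduceEq, if_false, add_zero]
      rw [R4_1, ih g, ← ih (fun a b => g a (b + 1))]
    · simp only [h, if_true, Fin.reduceEq, if_false, add_zero]
      rw [R4_2, ih g, ← ih (fun a b c => g a b (c + 1))]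
    · simp only [h, if_true, Fin.reduceEq, if_false, add_zero]
      rw [R4_3, ih g, ← ih (fun a b c d => g a b c (d + 1))]

theorem card_eq (U : Finset (Fin 13)) : U.card = cnt U 0 + cnt U 1 + cnt U 2 + cnt U 3 := by
  induction U using Finset.induction_on with
  | empty => simp [cnt]
  | insert v U hv ih =>
    rw [Finset.card_insert_of_notMem hv, cnt_insert hv, cnt_insert hv, cnt_insert hv,
      cnt_insert hv, ih]
    have h4 : lab v = 0 ∨ lab v = 1 ∨ lab v = 2 ∨ lab v = 3 := by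
      generalize lab v = x
      revert x
      decide
    rcases h4 with h | h | h | h <;> simp [h] <;> omega

theorem cnt_sdiff {S U : Finset (Fin 13)} (h : S ⊆ U) (i : Fin 4) :
    cnt (U \ S) i = cnt U i - cnt S i := by
  unfold cnt
  have : (U \ S).filter (fun v => lab v = i) =
      U.filter (fun v => lab v = i) \ S.filter (fun v => lab v = i) := by
    ext v
    simp only [Finset.mem_filter, Finset.mem_sdiff]
    tauto
  rw [this, Finset.card_sdiff_of_subset (Finset.filter_subset_filter _ h)]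

theorem cnt_pos_iff (S : Finset (Fin 13)) (i : Fin 4) :
    cnt S i ≠ 0 ↔ ∃ v ∈ S, lab v = i := by
  unfold cnt
  rw [Finset.card_ne_zero]
  constructor
  · rintro ⟨v, hv⟩
    rw [Finset.mem_filter] at hv
    exact ⟨v, hv⟩
  · rintro ⟨v, hv⟩
    exact ⟨v, Finset.mem_filter.2 hv⟩

theorem stab_iff (S : Finset (Fin 13)) :
    Stab adj S ↔ okb (cnt S 0) (cnt S 1) (cnt S 2) (cnt S 3) = true := by
  have key : Stab adj S ↔ (¬ (cnt S 1 ≠ 0 ∧ cnt S 2 ≠ 0) ∧ ¬ (cnt S 3 ≠ 0 ∧ cnt S 0 ≠ 0) ∧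
      ¬ (cnt S 1 ≠ 0 ∧ cnt S 3 ≠ 0)) := by
    rw [cnt_pos_iff, cnt_pos_iff, cnt_pos_iff, cnt_pos_iff]
    constructor
    · intro h
      refine ⟨?_, ?_, ?_⟩
      · rintro ⟨⟨u, hu, hu'⟩, ⟨v, hv, hv'⟩⟩
        exact h u hu v hv (Or.inl ⟨hu', hv'⟩)
      · rintro ⟨⟨u, hu, hu'⟩, ⟨v, hv, hv'⟩⟩
        exact h u hu v hv (Or.inr (Or.inr (Or.inl ⟨hu', hv'⟩)))
      · rintro ⟨⟨u, hu, hu'⟩, ⟨v, hv, hv'⟩⟩
        exact h u hu v hv (Or.inr (Or.inr (Or.inr (Or.inr (Or.inl ⟨hu', hv'⟩)))))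
    · rintro ⟨h1, h2, h3⟩ u hu v hv huv
      rcases huv with h | h | h | h | h | h
      · exact h1 ⟨⟨u, hu, h.1⟩, ⟨v, hv, h.2⟩⟩
      · exact h1 ⟨⟨v, hv, h.2⟩, ⟨u, hu, h.1⟩⟩
      · exact h2 ⟨⟨u, hu, h.1⟩, ⟨v, hv, h.2⟩⟩
      · exact h2 ⟨⟨v, hv, h.2⟩, ⟨u, hu, h.1⟩⟩
      · exact h3 ⟨⟨u, hu, h.1⟩, ⟨v, hv, h.2⟩⟩
      · exact h3 ⟨⟨v, hv, h.2⟩, ⟨u, hu, h.1⟩⟩
  rw [key]
  unfold okb
  simp only [Bool.and_eq_true, Bool.or_eq_true, Nat.beq_eq]
  omega

/-- the colouring polynomial as a function of the type -/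
noncomputable def fp : ℕ → ℕ → ℕ → ℕ → ℕ → MvPolynomial ℕ ℤ
  | 0, c1, r1, c2, r2 => if c1 + r1 + c2 + r2 = 0 then 1 else 0
  | k + 1, c1, r1, c2, r2 => R4 c1 r1 c2 r2 fun s1 t1 s2 t2 =>
      if okb s1 t1 s2 t2 = true then
        X k ^ (s1 + t1 + s2 + t2) * fp k (c1 - s1) (r1 - t1) (c2 - s2) (r2 - t2) else 0

theorem cp_eq (k : ℕ) : ∀ U : Finset (Fin 13),
    cp adj k U = fp k (cnt U 0) (cnt U 1) (cnt U 2) (cnt U 3) := by
  induction k with
  | zero =>
    intro U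
    rw [cp_zero, fp, card_eq]
  | succ k ih =>
    intro U
    rw [cp_succ, fp, ← sum_powerset]
    apply Finset.sum_congr rfl
    intro S hS
    rw [Finset.mem_powerset] at hS
    by_cases h : Stab adj S
    · rw [if_pos h, if_pos ((stab_iff S).1 h), ih, cnt_sdiff hS, cnt_sdiff hS, cnt_sdiff hS,
        cnt_sdiff hS, card_eq]
    · rw [if_neg h, if_neg (fun h' => h ((stab_iff S).2 h'))]

end H157R3.SNP
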